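import Pool.Agent.Helper34.ST.Basic

/-!
# NLA: a vertex of the class has a parent outside of the class
-/

set_option autoImplicit false

namespace Pool.Agent.Helper34.ST

open Finset

theorem nla_pth {ι : Type} {r : ι → ι → Prop} (q : ℕ → ι) (h : ∀ i, r (q i) (q (i + 1))) (n : ℕ) :
    Pth r n (q 0) (q n) := ⟨q, rfl, rfl, fun i _ => h i⟩

theorem st_NLA (hSTAR : ST_STAR) (hINJ : ST_INJ) (hSEL : ST_SEL) : ST_NLA := by
  classical
  intro ι _ r d hd hW z hz j e x v p hj hv hpv hnp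
  obtain ⟨h1, h2, -, -⟩ := hSTAR ι r (hW.exists_out hd) (hW.exists_in hd) j
  -- ancestors at distance at most `j`
  have star : ∀ i y y' w, i ≤ j → Pth r i y w → Pth r i y' w → Conn r j x y → Conn r j x y' := by
    intro i y y' w hi hy hy' hx
    exact Relation.ReflTransGen.trans hx (h2 i y y' w hi hy hy')
  have hout : ∀ y, ⌈d⌉₊ ≤ {w | r y w}.ncard := fun y => Nat.ceil_le.2 (hW.toO.ncard y)
  have hin : ∀ y, ⌈d⌉₊ ≤ {w | r w y}.ncard := fun y => Nat.ceil_le.2 (hW.flip.toO.ncard y)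
  let F0 : Finset ι := univ.filter (fun y => Conn r j x y ∧ ∃ p', r p' y ∧ ¬ Conn r j x p')
  obtain ⟨w, hvw⟩ := hW.exists_out hd v
  have hsub : {y | r y w} ⊆ (F0 : Set ι) := by
    intro y hy
    have hy' : r y w := hy
    have hxy : Conn r j x y := star 1 v y w (by omega) (Pth.one hvw) (Pth.one hy') hv
    obtain ⟨p', hp'⟩ := hW.exists_in hd y
    refine Finset.mem_coe.2 (Finset.mem_filter.2 ⟨Finset.mem_univ _, hxy, p', hp', ?_⟩)
    intro hc
    exact hnp (star 2 p' p w hj ((Pth.one hp').append (Pth.one hy'))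
      ((Pth.one hpv).append (Pth.one hvw)) hc)
  have hcard : ⌈d⌉₊ ≤ F0.card := by
    calc ⌈d⌉₊ ≤ {y | r y w}.ncard := hin w
      _ ≤ (F0 : Set ι).ncard := Set.ncard_le_ncard hsub (Finset.finite_toSet _)
      _ = F0.card := Set.ncard_coe_finset F0
  obtain ⟨F, hF, hFc⟩ := Finset.exists_subset_card_eq hcard
  obtain ⟨φ, hφ0, hφi, hφ⟩ := hINJ ι r ⌈d⌉₊ F Set.univ hFc (fun _ _ _ _ => Set.mem_univ _)
    (fun _ _ => Set.mem_univ _) (fun y _ => hout y)
  have hmem : ∀ f ∈ F, Conn r j x f ∧ ∃ p', r p' f ∧ ¬ Conn r j x p' := fun f hf =>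
    (Finset.mem_filter.1 (hF hf)).2
  have hpath : ∀ f ∈ F, ∀ n, Pth r n f (φ n f) := by
    intro f hf n
    have := nla_pth (r := r) (fun i => φ i f) (fun i => (hφ i f hf).2) n
    simp only [hφ0 f hf] at this
    exact this
  obtain ⟨f, hf, hsum⟩ := hSEL ι z d hd hz ⌈d⌉₊ F φ j e (Nat.le_ceil d) hFc hφi (by
    intro i hi f hf f' hf' heq
    obtain ⟨-, p', hp', hnp'⟩ := hmem f hf
    obtain ⟨hf'x, -⟩ := hmem f' hf'
    have h3 : Pth r (i + 1) p' (φ i f) := by
      have := (Pth.one hp').append (hpath f hf i)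
      rwa [Nat.add_comm] at this
    have h4 : Pth r (i + 1) f' (φ i f) := by
      rw [heq]
      exact hpath f' hf' (i + 1)
    exact hnp' (star (i + 1) f' p' _ hi h4 h3 hf'x))
  refine ⟨fun i => φ i f, fun i _ => (hφ i f hf).2, ?_, hsum⟩
  show Conn r j x (φ 0 f)
  rw [hφ0 f hf]
  exact (hmem f hf).1

end Pool.Agent.Helper34.ST
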